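import Mathlib

set_option autoImplicit false

namespace KPl

/-- A finite triangulated sphere (multiple edges and loops are allowed): `V`, `E`, `F` are the
vertices, edges and triangular faces. Every face has three corners and three sides, every edge
occurs exactly twice as a side, the graph of vertices and edges and the dual graph are connected,
and Euler's formula `|V| - |E| + |F| = 2` holds. -/
structure Sphere (V E F : Type) [Fintype V] [Fintype E] [Fintype F] where
  e0 : E → V
  e1 : E → V
  corner : F → Fin 3 → V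
  side : F → Fin 3 → E
  side_ends : ∀ f i,
    (e0 (side f i) = corner f (i + 1) ∧ e1 (side f i) = corner f (i + 2)) ∨
    (e0 (side f i) = corner f (i + 2) ∧ e1 (side f i) = corner f (i + 1))
  two_sides : ∀ e, Nat.card {p : F × Fin 3 // side p.1 p.2 = e} = 2
  vconn : ∀ B : Set V, B.Nonempty → Bᶜ.Nonempty →
    ∃ e, (e0 e ∈ B ∧ e1 e ∉ B) ∨ (e1 e ∈ B ∧ e0 e ∉ B)
  fconn : ∀ Φ : Set F, Φ.Nonempty → Φᶜ.Nonempty →
    ∃ f g i j, side f i = side g j ∧ f ∈ Φ ∧ g ∉ Φ
  euler : Fintype.card V + Fintype.card F = Fintype.card E + 2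

variable {V E F : Type} [Fintype V] [Fintype E] [Fintype F]

namespace Sphere

/-- Two vertices joined by an edge. -/
def Adj (S : Sphere V E F) (u v : V) : Prop :=
  ∃ e, (S.e0 e = u ∧ S.e1 e = v) ∨ (S.e0 e = v ∧ S.e1 e = u)

/-- The edge `e` leaves the vertex set `B`. -/
def Cross (S : Sphere V E F) (B : Set V) (e : E) : Prop :=
  (S.e0 e ∈ B ∧ S.e1 e ∉ B) ∨ (S.e1 e ∈ B ∧ S.e0 e ∉ B)

/-- Every face has none or exactly two of its sides in `X`. -/
def EvenOn (S : Sphere V E F) (X : Set E) : Prop :=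
  ∀ f, (∃ i, S.side f i ∈ X) →
    ∃ i, S.side f i ∉ X ∧ S.side f (i + 1) ∈ X ∧ S.side f (i + 2) ∈ X

/-- The vertex set `A` induces a connected (possibly empty) subgraph. -/
def Conn (S : Sphere V E F) (A : Set V) : Prop :=
  ∀ B ⊆ A, B.Nonempty → (A \ B).Nonempty → ∃ u ∈ B, ∃ v ∈ A \ B, S.Adj u v

/-- The face `f` has a corner in `A`. -/
def Meets (S : Sphere V E F) (f : F) (A : Set V) : Prop := ∃ i, S.corner f i ∈ A

end Sphere

/-- A rooted spanning tree, given by parents. -/
structure Tree (S : Sphere V E F) where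
  r : V
  par : V → V
  te : V → E
  par_r : par r = r
  link : ∀ v, v ≠ r → (S.e0 (te v) = v ∧ S.e1 (te v) = par v) ∨
    (S.e0 (te v) = par v ∧ S.e1 (te v) = v)
  reach : ∀ v, ∃ n : ℕ, par^[n] v = r

namespace Tree

variable {S : Sphere V E F}

/-- Root path of `v`: all ancestors of `v`, `v` included. -/
def RP (T : Tree S) (v : V) : Set V := {u | ∃ n : ℕ, T.par^[n] v = u}

/-- Descendants of `v`, `v` included. -/
def desc (T : Tree S) (v : V) : Set V := {x | v ∈ T.RP x}

/-- Edges not in the tree. -/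
def NonTree (T : Tree S) (e : E) : Prop := ∀ v, v ≠ T.r → T.te v ≠ e

/-- Union of the root paths of the corners of the faces in `Z`. -/
def span (T : Tree S) (Z : Set F) : Set V := {v | ∃ f ∈ Z, ∃ i, v ∈ T.RP (S.corner f i)}

end Tree

end KPl
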