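import Pool.Agent.Lib.KPl.Defs

set_option autoImplicit false

namespace KPl

variable {V E F : Type} [Fintype V] [Fintype E] [Fintype F]

open Module

/-- Coboundary on vertices, mod 2. -/
private def d0 (S : Sphere V E F) : (V → ZMod 2) →ₗ[ZMod 2] (E → ZMod 2) where
  toFun b e := b (S.e0 e) + b (S.e1 e)
  map_add' a b := by funext e; simp only [Pi.add_apply]; ring
  map_smul' c b := by funext e; simp [mul_add]

open Classical in
/-- Face-edge incidence matrix mod 2. -/
private noncomputable def M1 (S : Sphere V E F) : Matrix F E (ZMod 2) :=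
  fun f e => ∑ i, if S.side f i = e then 1 else 0

open Classical in
private theorem M1_mulVec (S : Sphere V E F) (x : E → ZMod 2) (f : F) :
    (M1 S).mulVec x f = ∑ i, x (S.side f i) := by
  simp only [Matrix.mulVec, dotProduct, M1, Finset.sum_mul]
  rw [Finset.sum_comm]
  refine Finset.sum_congr rfl fun i _ => ?_
  simp

open Classical in
private theorem M1T_mulVec (S : Sphere V E F) (y : F → ZMod 2) (e : E) :
    (M1 S).transpose.mulVec y e =
      ∑ p ∈ (Finset.univ : Finset (F × Fin 3)).filter (fun p => S.side p.1 p.2 = e), y p.1 := by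
  simp only [Matrix.mulVec, dotProduct, M1, Matrix.transpose_apply, Finset.sum_mul]
  rw [Finset.sum_filter, Fintype.sum_prod_type]
  refine Finset.sum_congr rfl fun f _ => Finset.sum_congr rfl fun i _ => ?_
  simp

private theorem zmod2_cases (a : ZMod 2) : a = 0 ∨ a = 1 := by
  revert a; decide

private theorem two_case {S : Sphere V E F} {y : F → ZMod 2}
    (hy : (M1 S).transpose.mulVec y = 0) {f g : F} {i j : Fin 3}
    (h : S.side f i = S.side g j) : y f = y g := by
  classical
  by_cases hfg : (f, i) = (g, j)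
  · rw [(Prod.mk.inj hfg).1]
  have h2 := S.two_sides (S.side f i)
  have hcard : ((Finset.univ : Finset (F × Fin 3)).filter
      (fun p => S.side p.1 p.2 = S.side f i)).card = 2 := by
    rw [← h2, Nat.card_eq_fintype_card, Fintype.card_subtype]
  have hsub : ({(f, i), (g, j)} : Finset (F × Fin 3)) ⊆
      (Finset.univ : Finset (F × Fin 3)).filter (fun p => S.side p.1 p.2 = S.side f i) := by
    intro p hp
    simp only [Finset.mem_insert, Finset.mem_singleton] at hp
    rcases hp with rfl | rfl
    · simp
    · simp [h]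
  have heq := Finset.eq_of_subset_of_card_le hsub (by rw [hcard, Finset.card_pair hfg])
  have h0 := congrFun hy (S.side f i)
  rw [M1T_mulVec, ← heq, Finset.sum_pair hfg] at h0
  simp only [Pi.zero_apply] at h0
  have h3 : ∀ a b : ZMod 2, a + b = 0 → a = b := by decide
  exact h3 _ _ h0

private theorem kerT_le (S : Sphere V E F) :
    LinearMap.ker (M1 S).transpose.mulVecLin ≤
      Submodule.span (ZMod 2) {(fun _ => 1 : F → ZMod 2)} := by
  intro y hy
  have hy' : (M1 S).transpose.mulVec y = 0 := by
    have := LinearMap.mem_ker.1 hy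
    rwa [Matrix.mulVecLin_apply] at this
  by_cases h1 : ({f | y f = 1} : Set F).Nonempty
  · by_cases h2 : ({f | y f = 1} : Set F)ᶜ.Nonempty
    · obtain ⟨f, g, i, j, hs, hf, hg⟩ := S.fconn _ h1 h2
      exact absurd ((two_case hy' hs) ▸ hf : y g = 1) hg
    · have : ∀ f, y f = 1 := by
        intro f
        by_contra hf
        exact h2 ⟨f, hf⟩
      have : y = fun _ => 1 := funext this
      rw [this]
      exact Submodule.mem_span_singleton_self _
  · have : ∀ f, y f = 0 := by
      intro f
      rcases zmod2_cases (y f) with h | h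
      · exact h
      · exact absurd ⟨f, h⟩ h1
    have : y = 0 := funext this
    rw [this]
    exact Submodule.zero_mem _

private theorem ker0_le (S : Sphere V E F) :
    LinearMap.ker (d0 S) ≤ Submodule.span (ZMod 2) {(fun _ => 1 : V → ZMod 2)} := by
  intro y hy
  have hy' : ∀ e, y (S.e0 e) = y (S.e1 e) := by
    intro e
    have h0 := congrFun (LinearMap.mem_ker.1 hy) e
    have h3 : ∀ a b : ZMod 2, a + b = 0 → a = b := by decide
    exact h3 _ _ h0
  by_cases h1 : ({f | y f = 1} : Set V).Nonempty
  · by_cases h2 : ({f | y f = 1} : Set V)ᶜ.Nonempty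
    · obtain ⟨e, he | he⟩ := S.vconn _ h1 h2
      · exact absurd (show y (S.e1 e) = 1 from (hy' e) ▸ he.1) he.2
      · exact absurd (show y (S.e0 e) = 1 from (hy' e).symm ▸ he.1) he.2
    · have : ∀ f, y f = 1 := by
        intro f
        by_contra hf
        exact h2 ⟨f, hf⟩
      have : y = fun _ => 1 := funext this
      rw [this]
      exact Submodule.mem_span_singleton_self _
  · have : ∀ f, y f = 0 := by
      intro f
      rcases zmod2_cases (y f) with h | h
      · exact h
      · exact absurd ⟨f, h⟩ h1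
    have : y = 0 := funext this
    rw [this]
    exact Submodule.zero_mem _

private theorem finrank_le_one_of_le_span {ι : Type} [Finite ι] {W : Submodule (ZMod 2) (ι → ZMod 2)}
    {v : ι → ZMod 2} (h : W ≤ Submodule.span (ZMod 2) {v}) : finrank (ZMod 2) W ≤ 1 :=
  (Submodule.finrank_mono h).trans (by
    classical
    refine (finrank_span_le_card _).trans ?_
    simp)

/-- Every edge set with even intersection with every face is a cut (Euler's formula). -/
theorem H1 (S : Sphere V E F) (X : Set E) (hX : S.EvenOn X) :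
    ∃ B : Set V, ∀ e, e ∈ X ↔ S.Cross B e := by
  classical
  -- range d0 ≤ ker M1
  have hle : LinearMap.range (d0 S) ≤ LinearMap.ker (M1 S).mulVecLin := by
    rintro _ ⟨b, rfl⟩
    rw [LinearMap.mem_ker, Matrix.mulVecLin_apply]
    funext f
    rw [M1_mulVec]
    have hside : ∀ i, (d0 S b) (S.side f i) = b (S.corner f (i + 1)) + b (S.corner f (i + 2)) := by
      intro i
      change b (S.e0 _) + b (S.e1 _) = _
      rcases S.side_ends f i with ⟨h, h'⟩ | ⟨h, h'⟩
      · rw [h, h']
      · rw [h, h', add_comm]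
    rw [Fin.sum_univ_three, hside, hside, hside]
    have h1 : (0 : Fin 3) + 1 = 1 := rfl
    have h2 : (0 : Fin 3) + 2 = 2 := rfl
    have h3 : (1 : Fin 3) + 1 = 2 := rfl
    have h4 : (1 : Fin 3) + 2 = 0 := rfl
    have h5 : (2 : Fin 3) + 1 = 0 := rfl
    have h6 : (2 : Fin 3) + 2 = 1 := rfl
    rw [h1, h2, h3, h4, h5, h6]
    have h7 : ∀ a b c : ZMod 2, a + b + (b + c) + (c + a) = 0 := by decide
    exact h7 _ _ _
  -- ranks
  have hr0 := LinearMap.finrank_range_add_finrank_ker (d0 S)
  have hk0 := finrank_le_one_of_le_span (ker0_le S)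
  have hrT := LinearMap.finrank_range_add_finrank_ker (M1 S).transpose.mulVecLin
  have hkT := finrank_le_one_of_le_span (kerT_le S)
  have hr1 := LinearMap.finrank_range_add_finrank_ker (M1 S).mulVecLin
  have htr : finrank (ZMod 2) (LinearMap.range (M1 S).transpose.mulVecLin) =
      finrank (ZMod 2) (LinearMap.range (M1 S).mulVecLin) := Matrix.rank_transpose (M1 S)
  rw [finrank_fintype_fun_eq_card] at hr0 hrT hr1
  have heuler := S.euler
  have heq : LinearMap.range (d0 S) = LinearMap.ker (M1 S).mulVecLin :=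
    Submodule.eq_of_le_of_finrank_le hle (by omega)
  -- indicator of X
  have hmem : (fun e => if e ∈ X then 1 else 0 : E → ZMod 2) ∈
      LinearMap.ker (M1 S).mulVecLin := by
    rw [LinearMap.mem_ker, Matrix.mulVecLin_apply]
    funext f
    rw [M1_mulVec]
    by_cases h : ∃ i, S.side f i ∈ X
    · obtain ⟨i, h0, h1, h2⟩ := hX f h
      have hsum : (∑ j, (if S.side f j ∈ X then 1 else 0 : ZMod 2)) =
          ∑ j, (if S.side f (i + j) ∈ X then 1 else 0 : ZMod 2) :=
        (Equiv.sum_comp (Equiv.addLeft i)
          (fun j => (if S.side f j ∈ X then 1 else 0 : ZMod 2))).symm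
      rw [hsum, Fin.sum_univ_three, add_zero, if_neg h0, if_pos h1, if_pos h2]
      change (0 + 1 + 1 : ZMod 2) = 0
      decide
    · push Not at h
      refine Finset.sum_eq_zero fun i _ => ?_
      rw [if_neg (h i)]
  rw [← heq] at hmem
  obtain ⟨b, hb⟩ := hmem
  refine ⟨{v | b v = 1}, fun e => ?_⟩
  have hbe : b (S.e0 e) + b (S.e1 e) = if e ∈ X then 1 else 0 := congrFun hb e
  have key : ∀ x y : ZMod 2, x + y = 1 ↔ ((x = 1 ∧ ¬ y = 1) ∨ (y = 1 ∧ ¬ x = 1)) := by decide
  have : e ∈ X ↔ b (S.e0 e) + b (S.e1 e) = 1 := by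
    rw [hbe]
    by_cases he : e ∈ X <;> simp [he]
  rw [this, key]
  rfl

end KPl
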