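import Pool.Agent.Lib.KPl.Defs

set_option autoImplicit false

namespace KPl

variable {V E F : Type} [Fintype V] [Fintype E] [Fintype F]

namespace Sphere

theorem Adj.symm {S : Sphere V E F} {u v : V} (h : S.Adj u v) : S.Adj v u := by
  obtain ⟨e, h | h⟩ := h
  · exact ⟨e, Or.inr h⟩
  · exact ⟨e, Or.inl h⟩

/-- A set in which every vertex is joined to a fixed one by a walk inside the set is connected. -/
theorem conn_of_root (S : Sphere V E F) {A : Set V} (root : V)
    (h : ∀ x ∈ A, Relation.ReflTransGen (fun a b => a ∈ A ∧ b ∈ A ∧ S.Adj a b) x root) :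
    S.Conn A := by
  intro B hBA hB hAB
  by_contra hcon
  push Not at hcon
  -- B is closed under steps
  have hstep : ∀ a b, a ∈ A → b ∈ A → S.Adj a b → (a ∈ B ↔ b ∈ B) := by
    intro a b ha hb hab
    constructor
    · intro haB
      by_contra hbB
      exact hcon a haB b ⟨hb, hbB⟩ hab
    · intro hbB
      by_contra haB
      exact hcon b hbB a ⟨ha, haB⟩ hab.symm
  have hwalk : ∀ x y, Relation.ReflTransGen (fun a b => a ∈ A ∧ b ∈ A ∧ S.Adj a b) x y →
      (x ∈ B ↔ y ∈ B) := by
    intro x y hxy
    induction hxy with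
    | refl => rfl
    | tail _ h ih => rw [ih]; exact hstep _ _ h.1 h.2.1 h.2.2
  obtain ⟨x, hx⟩ := hB
  obtain ⟨y, hyA, hyB⟩ := hAB
  have h1 := hwalk x root (h x (hBA hx))
  have h2 := hwalk y root (h y hyA)
  exact hyB (h2.mpr (h1.mp hx))

end Sphere

namespace Tree

variable {S : Sphere V E F} (T : Tree S)

theorem adj_par {v : V} (hv : v ≠ T.r) : S.Adj v (T.par v) := by
  rcases T.link v hv with h | h
  · exact ⟨T.te v, Or.inl h⟩
  · exact ⟨T.te v, Or.inr h⟩

theorem self_mem_RP (v : V) : v ∈ T.RP v := ⟨0, rfl⟩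

theorem par_mem_RP (v : V) : T.par v ∈ T.RP v := ⟨1, rfl⟩

theorem r_mem_RP (v : V) : T.r ∈ T.RP v := T.reach v

theorem RP_trans {u v w : V} (h1 : u ∈ T.RP v) (h2 : v ∈ T.RP w) : u ∈ T.RP w := by
  obtain ⟨n, hn⟩ := h1
  obtain ⟨m, hm⟩ := h2
  exact ⟨n + m, by rw [Function.iterate_add_apply, hm, hn]⟩

theorem RP_par {u v : V} (h : u ∈ T.RP v) : u = v ∨ u ∈ T.RP (T.par v) := by
  obtain ⟨n, hn⟩ := h
  cases n with
  | zero => exact Or.inl hn.symm
  | succ n => exact Or.inr ⟨n, by rw [← hn, Function.iterate_succ_apply]⟩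

theorem RP_comparable {u v w : V} (h1 : u ∈ T.RP w) (h2 : v ∈ T.RP w) :
    u ∈ T.RP v ∨ v ∈ T.RP u := by
  obtain ⟨n, hn⟩ := h1
  obtain ⟨m, hm⟩ := h2
  rcases le_total n m with h | h
  · right
    exact ⟨m - n, by rw [← hn, ← Function.iterate_add_apply, Nat.sub_add_cancel h, hm]⟩
  · left
    exact ⟨n - m, by rw [← hm, ← Function.iterate_add_apply, Nat.sub_add_cancel h, hn]⟩

theorem iterate_r (n : ℕ) : T.par^[n] T.r = T.r := by
  induction n with
  | zero => rfl
  | succ n ih => rw [Function.iterate_succ_apply, T.par_r, ih]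

theorem RP_r {u : V} (h : u ∈ T.RP T.r) : u = T.r := by
  obtain ⟨n, hn⟩ := h
  rw [← hn, T.iterate_r]

open Classical in
/-- Depth. -/
noncomputable def dep (v : V) : ℕ := Nat.find (T.reach v)

theorem dep_spec (v : V) : T.par^[T.dep v] v = T.r := by
  classical
  exact Nat.find_spec (T.reach v)

theorem dep_le {v : V} {n : ℕ} (h : T.par^[n] v = T.r) : T.dep v ≤ n := by
  classical
  exact Nat.find_min' (T.reach v) h

theorem dep_r : T.dep T.r = 0 := Nat.le_zero.mp (T.dep_le (n := 0) rfl)

theorem dep_eq_zero {v : V} (h : T.dep v = 0) : v = T.r := by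
  have := T.dep_spec v
  rwa [h] at this

theorem dep_par {v : V} (hv : v ≠ T.r) : T.dep v = T.dep (T.par v) + 1 := by
  apply le_antisymm
  · apply T.dep_le
    rw [Function.iterate_succ_apply]
    exact T.dep_spec _
  · have h0 : T.dep v ≠ 0 := fun h => hv (T.dep_eq_zero h)
    obtain ⟨n, hn⟩ := Nat.exists_eq_succ_of_ne_zero h0
    have h1 := T.dep_spec v
    rw [hn, Nat.succ_eq_add_one, Function.iterate_succ_apply] at h1
    have := T.dep_le h1
    omega

theorem par_ne {v : V} (hv : v ≠ T.r) : T.par v ≠ v := by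
  intro h
  have := T.dep_par hv
  rw [h] at this
  omega

theorem dep_le_of_mem {u v : V} (h : u ∈ T.RP v) : T.dep u ≤ T.dep v := by
  obtain ⟨n, hn⟩ := h
  induction n generalizing v with
  | zero => rw [← hn]; rfl
  | succ n ih =>
    rw [Function.iterate_succ_apply] at hn
    have := ih hn
    by_cases hv : v = T.r
    · subst hv; rw [T.par_r] at this; exact this
    · have := T.dep_par hv; omega

theorem dep_lt_of_mem {u v : V} (h : u ∈ T.RP v) (hne : u ≠ v) : T.dep u < T.dep v := by
  rcases T.RP_par h with h' | h'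
  · exact absurd h' hne
  · by_cases hv : v = T.r
    · subst hv; exact absurd (T.RP_r h) hne
    · have := T.dep_le_of_mem h'
      have := T.dep_par hv
      omega

theorem RP_antisymm {u v : V} (h : u ∈ T.RP v) (h' : v ∈ T.RP u) : u = v := by
  by_contra hne
  have := T.dep_lt_of_mem h hne
  have := T.dep_le_of_mem h'
  omega

/-- Ancestor closed sets. -/
def Up (Q : Set V) : Prop := ∀ x ∈ Q, T.par x ∈ Q

theorem Up.mem {T : Tree S} {Q : Set V} (hQ : T.Up Q) {u v : V} (h : u ∈ T.RP v) (hv : v ∈ Q) :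
    u ∈ Q := by
  obtain ⟨n, hn⟩ := h
  induction n generalizing v with
  | zero => rw [← hn]; exact hv
  | succ n ih => rw [Function.iterate_succ_apply] at hn; exact ih (hQ v hv) hn

theorem up_RP (v : V) : T.Up (T.RP v) := by
  rintro x ⟨n, rfl⟩
  exact ⟨n + 1, by rw [Function.iterate_succ_apply']⟩

theorem Up.union {T : Tree S} {P Q : Set V} (hP : T.Up P) (hQ : T.Up Q) : T.Up (P ∪ Q) := by
  rintro x (h | h)
  · exact Or.inl (hP x h)
  · exact Or.inr (hQ x h)

/-- Union of root paths. -/
def RPs (Y : Set V) : Set V := {x | ∃ y ∈ Y, x ∈ T.RP y}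

theorem up_RPs (Y : Set V) : T.Up (T.RPs Y) := by
  rintro x ⟨y, hy, hx⟩
  exact ⟨y, hy, T.up_RP y x hx⟩

/-- Walking up inside a set. -/
theorem walk_up {A : Set V} {u v : V} (h : u ∈ T.RP v)
    (hA : ∀ x, x ∈ T.RP v → u ∈ T.RP x → x ∈ A) :
    Relation.ReflTransGen (fun a b => a ∈ A ∧ b ∈ A ∧ S.Adj a b) v u := by
  obtain ⟨n, hn⟩ := h
  induction n generalizing v with
  | zero => rw [← hn]; exact Relation.ReflTransGen.refl
  | succ n ih =>
    by_cases hv : v = T.r
    · subst hv
      rw [T.iterate_r] at hn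
      exact hn ▸ Relation.ReflTransGen.refl
    · rw [Function.iterate_succ_apply] at hn
      refine Relation.ReflTransGen.head ⟨hA v (T.self_mem_RP v) ⟨n + 1, hn⟩,
        hA _ (T.par_mem_RP v) ⟨n, hn⟩, T.adj_par hv⟩
        (ih ?_ hn)
      intro x hx hux
      exact hA x (T.RP_trans hx (T.par_mem_RP v)) hux

theorem conn_up {Q : Set V} (hQ : T.Up Q) : S.Conn Q := by
  refine S.conn_of_root T.r fun x hx => T.walk_up (T.r_mem_RP x) ?_
  intro y hy _
  exact hQ.mem hy hx

theorem conn_desc (v : V) : S.Conn (T.desc v) := by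
  refine S.conn_of_root v fun x hx => T.walk_up hx ?_
  intro y _ hy
  exact hy

theorem conn_desc_compl (v : V) : S.Conn (T.desc v)ᶜ := by
  apply T.conn_up
  intro x hx h
  exact hx (T.RP_trans h (T.par_mem_RP x))

/-! ### Nearest ancestor in a set -/

theorem exists_nearest (W : Set V) (hr : T.r ∈ W) (x : V) : ∃ n, T.par^[n] x ∈ W := by
  obtain ⟨n, hn⟩ := T.reach x
  exact ⟨n, by rw [hn]; exact hr⟩

open Classical in
/-- Nearest ancestor in `W` (the root if there is none). -/
noncomputable def near (W : Set V) (x : V) : V :=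
  if h : ∃ n, T.par^[n] x ∈ W then T.par^[Nat.find h] x else T.r

theorem near_mem {W : Set V} (hr : T.r ∈ W) (x : V) : T.near W x ∈ W := by
  classical
  rw [near, dif_pos (T.exists_nearest W hr x)]
  exact Nat.find_spec (T.exists_nearest W hr x)

theorem near_mem_RP {W : Set V} (x : V) : T.near W x ∈ T.RP x := by
  classical
  rw [near]
  split_ifs with h
  · exact ⟨_, rfl⟩
  · exact T.r_mem_RP x

theorem near_self {W : Set V} {x : V} (hx : x ∈ W) : T.near W x = x := by
  classical
  have h : ∃ n, T.par^[n] x ∈ W := ⟨0, hx⟩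
  rw [near, dif_pos h]
  have : Nat.find h = 0 := (Nat.find_eq_zero h).mpr hx
  rw [this]; rfl

theorem near_par {W : Set V} {x : V} (hx : x ∉ W) : T.near W x = T.near W (T.par x) := by
  classical
  by_cases h : ∃ n, T.par^[n] x ∈ W
  · have h' : ∃ n, T.par^[n] (T.par x) ∈ W := by
      obtain ⟨n, hn⟩ := h
      cases n with
      | zero => exact absurd hn hx
      | succ n => exact ⟨n, by rwa [Function.iterate_succ_apply] at hn⟩
    rw [near, near, dif_pos h, dif_pos h']
    have h2 : Nat.find h = Nat.find h' + 1 := by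
      rw [Nat.find_eq_iff]
      refine ⟨by rw [Function.iterate_succ_apply]; exact Nat.find_spec h', ?_⟩
      intro m hm
      cases m with
      | zero => exact hx
      | succ m =>
        rw [Function.iterate_succ_apply]
        exact Nat.find_min h' (by omega)
    rw [h2, Function.iterate_succ_apply]
  · have h' : ¬ ∃ n, T.par^[n] (T.par x) ∈ W := by
      rintro ⟨n, hn⟩
      exact h ⟨n + 1, by rwa [Function.iterate_succ_apply]⟩
    rw [near, near, dif_neg h, dif_neg h']

/-- Any ancestor in `W` is an ancestor of the nearest one. -/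
theorem mem_RP_near {W : Set V} {x w : V} (hw : w ∈ W) (h : w ∈ T.RP x) :
    w ∈ T.RP (T.near W x) := by
  obtain ⟨n, hn⟩ := h
  induction n generalizing x with
  | zero =>
    have : w = x := hn.symm
    subst this
    rw [T.near_self hw]; exact T.self_mem_RP w
  | succ n ih =>
    rw [Function.iterate_succ_apply] at hn
    by_cases hx : x ∈ W
    · rw [T.near_self hx]
      exact ⟨n + 1, by rw [Function.iterate_succ_apply]; exact hn⟩
    · rw [T.near_par hx]; exact ih hn

/-- Vertices between `x` and its nearest `W`-ancestor have the same nearest ancestor. -/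
theorem near_eq_of_between {W : Set V} {x y : V} (h : y ∈ T.RP x) (h' : T.near W x ∈ T.RP y) :
    T.near W y = T.near W x := by
  obtain ⟨n, hn⟩ := h
  induction n generalizing x with
  | zero =>
    have : y = x := hn.symm
    rw [this]
  | succ n ih =>
    rw [Function.iterate_succ_apply] at hn
    by_cases hx : x ∈ W
    · rw [T.near_self hx] at h' ⊢
      have hyx : y ∈ T.RP x := ⟨n + 1, by rw [Function.iterate_succ_apply]; exact hn⟩
      have : y = x := T.RP_antisymm hyx h'
      rw [this, T.near_self hx]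
    · rw [T.near_par hx] at h' ⊢
      exact ih h' hn

/-- Classes of the nearest-ancestor map are connected, also after removing a set closed under
descendants. -/
theorem conn_near {W K : Set V} (hK : ∀ x y, y ∈ T.RP x → y ∈ K → x ∈ K) (w : V) :
    S.Conn {x | x ∉ K ∧ T.near W x = w} := by
  refine S.conn_of_root w ?_
  rintro x ⟨hxK, hx⟩
  refine T.walk_up (hx ▸ T.near_mem_RP x) ?_
  intro y hy hwy
  refine ⟨fun h => hxK (hK x y hy h), ?_⟩
  rw [← hx]
  exact T.near_eq_of_between hy (by rw [hx]; exact hwy)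

/-! ### Segments -/

/-- Vertical segment from the top `c.1` to the bottom `c.2`. -/
def seg (c : V × V) : Set V := {x | x ∈ T.RP c.1 ∧ c.2 ∈ T.RP x}

/-- Decomposition of a union of root paths into disjoint segments. -/
theorem chains {Q : Set V} (hQ : T.Up Q) (hr : T.r ∈ Q) (Y : Finset V) :
    ∃ L : Finset (V × V), L.card ≤ Y.card ∧
      (∀ c ∈ L, c.1 ∈ Y ∧ c.2 ∈ T.RP c.1 ∧ c.2 ∉ Q) ∧
      (∀ c ∈ L, ∀ c' ∈ L, c ≠ c' → Disjoint (T.seg c) (T.seg c')) ∧
      (∀ x, (∃ c ∈ L, x ∈ T.seg c) ↔ x ∉ Q ∧ ∃ y ∈ Y, x ∈ T.RP y) := by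
  classical
  induction Y using Finset.induction_on with
  | empty => exact ⟨∅, by simp, by simp, by simp, by simp⟩
  | insert y Y hy ih =>
    obtain ⟨L, h1, h2, h3, h4⟩ := ih
    set Q' : Set V := Q ∪ T.RPs Y with hQ'
    have hQ'up : T.Up Q' := hQ.union (T.up_RPs _)
    by_cases hyQ : y ∈ Q'
    · refine ⟨L, h1.trans (Finset.card_le_card (Finset.subset_insert _ _)), ?_, h3, ?_⟩
      · intro c hc
        obtain ⟨a, b, d⟩ := h2 c hc
        exact ⟨Finset.mem_insert_of_mem a, b, d⟩
      · intro x
        rw [h4]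
        constructor
        · rintro ⟨a, z, hz, hx⟩
          exact ⟨a, z, Finset.mem_insert_of_mem hz, hx⟩
        · rintro ⟨a, z, hz, hx⟩
          rcases Finset.mem_insert.mp hz with rfl | hz
          · rcases hyQ with h | ⟨z', hz', h⟩
            · exact absurd (hQ.mem hx h) a
            · exact ⟨a, z', hz', T.RP_trans hx h⟩
          · exact ⟨a, z, hz, hx⟩
    · -- the last vertex outside `Q'`
      have hex : ∃ n, T.par^[n] y ∈ Q' := by
        obtain ⟨n, hn⟩ := T.reach y
        exact ⟨n, by rw [hn]; exact Or.inl hr⟩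
      obtain ⟨m, hm1, hm2⟩ : ∃ m, T.par^[m] y ∉ Q' ∧ T.par^[m + 1] y ∈ Q' := by
        have h0 : Nat.find hex ≠ 0 := by
          intro h
          have := Nat.find_spec hex
          rw [h] at this
          exact hyQ this
        obtain ⟨m, hm⟩ := Nat.exists_eq_succ_of_ne_zero h0
        refine ⟨m, Nat.find_min hex (by omega), ?_⟩
        have := Nat.find_spec hex
        rwa [hm] at this
      set b := T.par^[m] y with hb
      have hbRP : b ∈ T.RP y := ⟨m, rfl⟩
      have hpb : T.par b ∈ Q' := by
        rw [Function.iterate_succ_apply'] at hm2; exact hm2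
      -- the segment is exactly the part of the root path outside `Q'`
      have hseg : ∀ x, x ∈ T.seg (y, b) ↔ x ∈ T.RP y ∧ x ∉ Q' := by
        intro x
        constructor
        · rintro ⟨hx, hbx⟩
          exact ⟨hx, fun h => hm1 (hQ'up.mem hbx h)⟩
        · rintro ⟨hx, hxQ⟩
          refine ⟨hx, ?_⟩
          rcases T.RP_comparable hbRP hx with h | h
          · exact h
          · rcases T.RP_par h with h | h
            · rw [h]; exact T.self_mem_RP _
            · exact absurd (hQ'up.mem h hpb) hxQ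
      refine ⟨insert (y, b) L, (Finset.card_insert_le _ _).trans ?_, ?_, ?_, ?_⟩
      · rw [Finset.card_insert_of_notMem hy]; omega
      · intro c hc
        rcases Finset.mem_insert.mp hc with rfl | hc
        · exact ⟨Finset.mem_insert_self _ _, hbRP, fun h => hm1 (Or.inl h)⟩
        · obtain ⟨a, b, d⟩ := h2 c hc
          exact ⟨Finset.mem_insert_of_mem a, b, d⟩
      · have key : ∀ c ∈ L, Disjoint (T.seg (y, b)) (T.seg c) := by
          intro c hc
          rw [Set.disjoint_left]
          intro x hx hx'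
          obtain ⟨h5, z, hz, h6⟩ := (h4 x).mp ⟨c, hc, hx'⟩
          exact ((hseg x).mp hx).2 (Or.inr ⟨z, hz, h6⟩)
        intro c hc c' hc' hne
        rcases Finset.mem_insert.mp hc with rfl | hc
        · rcases Finset.mem_insert.mp hc' with rfl | hc'
          · exact absurd rfl hne
          · exact key c' hc'
        · rcases Finset.mem_insert.mp hc' with rfl | hc'
          · exact (key c hc).symm
          · exact h3 c hc c' hc' hne
      · intro x
        constructor
        · rintro ⟨c, hc, hx⟩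
          rcases Finset.mem_insert.mp hc with rfl | hc
          · obtain ⟨a, b'⟩ := (hseg x).mp hx
            exact ⟨fun h => b' (Or.inl h), y, Finset.mem_insert_self _ _, a⟩
          · obtain ⟨a, z, hz, h⟩ := (h4 x).mp ⟨c, hc, hx⟩
            exact ⟨a, z, Finset.mem_insert_of_mem hz, h⟩
        · rintro ⟨hxQ, z, hz, hx⟩
          by_cases hx' : x ∈ T.RPs (Y : Set V)
          · obtain ⟨z', hz', h⟩ := hx'
            obtain ⟨c, hc, hxc⟩ := (h4 x).mpr ⟨hxQ, z', hz', h⟩
            exact ⟨c, Finset.mem_insert_of_mem hc, hxc⟩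
          · rcases Finset.mem_insert.mp hz with rfl | hz
            · refine ⟨(z, b), Finset.mem_insert_self _ _, (hseg x).mpr ⟨hx, ?_⟩⟩
              rintro (h | h)
              · exact hxQ h
              · exact hx' h
            · exact absurd ⟨z, hz, hx⟩ hx'

end Tree

end KPl
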